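import Pool.Agent.helper58.FI.SpecC
import Pool.Agent.helper13.DI.B10

set_option autoImplicit false

namespace Pool.Agent.FI

open Pool.Agent.helper58.DC Pool.Agent.DI Pool.Agent.GR Pool.Agent.OB Pool.Agent.DR

theorem FCE_cyc {Γ : Type} [Group Γ] (K S : Subgroup Γ) (hSn : S ≤ nz K) (hcy : CyS K S) :
    CycQ (K.subgroupOf S) := by
  refine ⟨⟨fun x hx g => ?_⟩, ?_⟩
  · rw [Subgroup.mem_subgroupOf] at hx ⊢
    have h := hSn g.2
    have h2 := (Subgroup.mem_normalizer_iff.1 h (x : Γ)).1 hx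
    exact h2
  · obtain ⟨s, hs, h⟩ := hcy
    refine ⟨⟨s, hs⟩, fun x => ?_⟩
    obtain ⟨k, hk⟩ := h x x.2
    exact ⟨k, hk⟩

theorem FCE_set {Γ : Type} [Group Γ] (S : Subgroup Γ) (ψ : Γ → ℂ) (hinv : ∀ s ∈ S, cjF s ψ = ψ) :
    {ψ' : Γ → ℂ | ∃ n ∈ S, ψ' = funMap (MulAut.conj n) ψ} = {ψ} := by
  ext ψ'
  constructor
  · rintro ⟨n, hn, rfl⟩
    exact hinv n hn
  · rintro rfl
    exact ⟨1, S.one_mem, (hinv 1 S.one_mem).symm⟩

theorem FCE (hIRT : IRT_stmt) (hB9 : B9_stmt) (hCCJ : CCJ_stmt) (hCUQ : CUQ_stmt) : FCE_stmt := by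
  classical
  intro Γ _ _ K S hKS hSn hcy ψ hψ hinv
  have hK := FCE_cyc K S hSn hcy
  obtain ⟨h1, h2, -⟩ := hB9 S (K.subgroupOf S) hK
  have hSK : S ⊓ K = K := inf_eq_right.2 hKS
  have hψ' : ψ ∈ IrrOn (S ⊓ K) := by rw [hSK]; exact hψ
  have hs := B10_supp_of_irr S K ψ hψ'
  have hset := FCE_set S ψ hinv
  have hov : ∀ φ : Γ → ℂ, OverP (S ⊓ K) S φ ψ ↔ ∀ x ∈ K, φ x = ψ x := by
    intro φ
    unfold OverP
    rw [hset, hSK]
    simp only [finsum_mem_singleton]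
  have hst : stF S ψ = S := by
    ext g
    exact ⟨fun h => h.1, fun h => ⟨h, hinv g h⟩⟩
  refine ⟨?_, ?_⟩
  · have h4 := h2 (B10_res S ψ) ((B10_irrK S hIRT K ψ hs).1 hψ')
    have e1 : {φ : Γ → ℂ | φ ∈ IrrOn S ∧ ∀ x ∈ K, φ x = ψ x}.ncard =
        Nat.card {φ : S → ℂ // φ ∈ Irr S ∧ OverP (K.subgroupOf S) ⊤ φ (B10_res S ψ)} := by
      rw [← Nat.card_coe_set_eq]
      refine Nat.card_congr
        { toFun := fun φ => ⟨B10_res S φ.1, φ.2.1.2, (B10_over S K _ _ hs).1 ((hov _).2 φ.2.2)⟩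
          invFun := fun f => ⟨B10_ex S f.1, B10_ex_irr S f.1 f.2.1, ?_⟩
          left_inv := ?_
          right_inv := ?_ }
      · apply (hov _).1
        rw [B10_over S K _ _ hs, B10_res_ex]
        exact f.2.2
      · intro φ
        exact Subtype.ext (B10_ex_res S φ.1 φ.2.1.1)
      · intro f
        exact Subtype.ext (B10_res_ex S f.1)
    have e2 : Nat.card K = Nat.card (K.subgroupOf S) := by
      rw [← Nat.card_congr (B10_iso S K).symm.toEquiv, hSK]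
    have e3 : Nat.card S = Nat.card (stF (⊤ : Subgroup S) (B10_res S ψ)) := by
      have h5 : Nat.card (stF S ψ) = Nat.card (stF (⊤ : Subgroup S) (B10_res S ψ)) := by
        rw [← B10_stab S ψ hs]
        exact Subgroup.card_map_of_injective S.subtype_injective
      rw [← h5, hst]
    rw [e1, e2, e3]
    exact h4
  · intro φ hφ e he hφe
    obtain ⟨f, hf, hovf⟩ := h1 (B10_res S φ) hφ.2
    have hsf := B10_ex_supp S f
    have hirr : B10_ex S f ∈ IrrOn (S ⊓ K) := by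
      rw [B10_irrK S hIRT K _ hsf, B10_res_ex]
      exact hf
    have hover : OverP (S ⊓ K) S φ (B10_ex S f) := by
      rw [B10_over S K _ _ hsf, B10_res_ex]
      exact hovf
    rw [hSK] at hirr hover
    have hA : OverE K S φ (B10_ex S f) 1 := by
      intro x hx
      rw [hover x hx, Nat.cast_one, one_mul]
    have hB : OverE K S φ ψ e := by
      intro x hx
      rw [hset, finsum_mem_singleton]
      exact hφe x hx
    have hA' := ((hCCJ Γ K S hSn (B10_ex S f) hirr).2.1 φ 1).1 hA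
    have hB' := ((hCCJ Γ K S hSn ψ hψ).2.1 φ e).1 hB
    have hc := hCUQ Γ K
      (fun θ => if ∃ n ∈ S, θ = funMap (MulAut.conj n) (B10_ex S f) then ((1 : ℕ) : ℂ) else 0)
      (fun θ => if ∃ n ∈ S, θ = funMap (MulAut.conj n) ψ then (e : ℂ) else 0)
      (fun x hx => (hA' x hx).symm.trans (hB' x hx)) ψ hψ
    have hψs : ∃ n ∈ S, ψ = funMap (MulAut.conj n) ψ := ⟨1, S.one_mem, (hinv 1 S.one_mem).symm⟩
    simp only [if_pos hψs] at hc
    split_ifs at hc with h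
    · exact_mod_cast hc.symm
    · exact absurd (by exact_mod_cast hc.symm : e = 0) he.ne'

end Pool.Agent.FI
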