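import Pool.Agent.helper22.FI.SpecA

set_option autoImplicit false

namespace Pool.Agent.FI

open Pool.Agent.helper58.DC Pool.Agent.DI Pool.Agent.GR Pool.Agent.OB

theorem GDC (h1 : CHD_stmt) (h2 : UNQ_stmt) (h3 : DVD_stmt) (h4 : BR0_stmt) (h5 : BLE_stmt)
    (h6 : B2_stmt) : GDC_stmt := by
  classical
  intro p M hS G _ _ L D w hLD ψ hψ hD
  obtain ⟨hv0, -, -⟩ := h3 p M hS G L D w hLD ψ hψ hD
  have hU := h2 p M hS G L D w hLD ψ hψ hD
  have hDL : D ≤ L := hD.le.trans inf_le_left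
  have hcom : ∀ c ∈ D, ∀ v ∈ L, c * v = v * c := by
    intro c hc v hv
    exact Subgroup.mem_centralizer_iff.1 (hLD hv) c hc
  obtain ⟨hfin, hB2⟩ := h6 G L
  have hsub : Bl M L ψ ⊆ IrrOn L := fun x hx => hx.1
  have hfinB : (Bl M L ψ).Finite := hfin.subset hsub
  have hone : ∀ ψ' ∈ Bl M L ψ, ψ' 1 ≠ 0 := by
    intro ψ' hψ'
    obtain ⟨n, hn, e, -⟩ := (hB2 ψ' hψ'.1).1
    rw [e]
    exact_mod_cast hn.ne'
  haveI : Finite (Bl M L ψ) := hfinB
  letI : CommGroup D := { (inferInstance : Group D) with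
    mul_comm := fun a b => Subtype.ext (hcom a a.2 b (hDL b.2)) }
  -- the linear characters
  let f : Bl M L ψ → (D →* ℂ) := fun ψ' =>
    { toFun := fun d => ψ'.1 (d : G) / ψ'.1 1
      map_one' := div_self (hone ψ'.1 ψ'.2)
      map_mul' := by
        intro a b
        have h := (hv0 ψ'.1 ψ'.2.1 a a.2).1 b (hDL b.2)
        have h0 := hone ψ'.1 ψ'.2
        change ψ'.1 ((a : G) * (b : G)) / ψ'.1 1 = ψ'.1 (a : G) / ψ'.1 1 * (ψ'.1 (b : G) / ψ'.1 1)
        rw [div_mul_div_comm, div_eq_div_iff h0 (mul_ne_zero h0 h0)]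
        linear_combination (ψ'.1 1) * h }
  let l : Bl M L ψ → (D →* ℂˣ) := fun ψ' => (f ψ').toHomUnits
  have hl : ∀ (ψ' : Bl M L ψ) (d : D), ((l ψ' d : ℂˣ) : ℂ) = ψ'.1 (d : G) / ψ'.1 1 := fun ψ' d => rfl
  have hinj : Function.Injective l := by
    intro a b hab
    apply Subtype.ext
    apply hU a.1 a.2 b.1 b.2
    intro d hd
    have h := congrArg (fun φ : D →* ℂˣ => ((φ ⟨d, hd⟩ : ℂˣ) : ℂ)) hab
    simp only [hl] at h
    rw [div_eq_div_iff (hone _ a.2) (hone _ b.2)] at h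
    exact h
  have hBC : BC M L (Bl M L ψ) := by
    obtain ⟨hb, -, -, -, -, -, -, he⟩ := h5 p M hS G L L le_rfl ψ
    rw [he] at hb
    exact hb
  -- the sums vanish
  have hsum : ∀ v ∈ L, PReg p v → ∀ v' ∈ L, PReg p v' → ∀ u : D, u ≠ 1 →
      ∑ᶠ x : Bl M L ψ, ((l x u : ℂˣ) : ℂ) * (x.1 v * x.1 v'⁻¹) = 0 := by
    intro v hv hvr v' hv' hvr' u hu
    have hPE : PEl p (u : G) := by
      obtain ⟨k, hk⟩ := hD.pg u
      exact ⟨k, by simpa using congrArg Subtype.val hk⟩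
    have h := h4 p M hS G L (Bl M L ψ) hBC (u : G) (hDL u.2) v hv 1 L.one_mem v' hv' hPE
      ⟨0, by simp⟩ hvr hvr' (hcom u u.2 v hv) (Commute.one_left v') (by
        intro h hh e
        apply hu
        apply Subtype.ext
        have : (u : G) = h * 1 * h⁻¹ := by rw [← e]; group
        rw [this]
        simp)
    unfold Sf at h
    rw [← finsum_set_coe_eq_finsum_mem] at h
    rw [← h]
    refine finsum_congr fun x => ?_
    rw [hl, one_mul]
    have h8 := (hv0 x.1 x.2.1 u u.2).1 v hv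
    have h0 := hone x.1 x.2
    have h9 : x.1 ((u : G) * v) = x.1 (u : G) / x.1 1 * x.1 v := by
      field_simp
      linear_combination h8
    rw [h9]
    ring
  have hreg1 : PReg p (1 : G) := by
    unfold PReg
    rw [orderOf_one, Nat.dvd_one]
    exact hS.pr.ne_one
  have hmem : ψ ∈ Bl M L ψ := ⟨hψ, SB.refl L ψ⟩
  have hA := h1 D (Bl M L ψ) l (fun x => x.1 1 * x.1 (1 : G)⁻¹) hinj
    (hsum 1 L.one_mem hreg1 1 L.one_mem hreg1)
    ⟨⟨ψ, hmem⟩, by
      change ψ 1 * ψ (1 : G)⁻¹ ≠ 0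
      rw [inv_one]
      exact mul_ne_zero (hone ψ hmem) (hone ψ hmem)⟩
  have hdeg : ∀ a ∈ Bl M L ψ, ∀ b ∈ Bl M L ψ, a 1 = b 1 := by
    intro a ha b hb
    have h := hA.2 ⟨a, ha⟩ ⟨b, hb⟩
    simp only [inv_one] at h
    obtain ⟨n, hn, e, -⟩ := (hB2 a ha.1).1
    obtain ⟨m, hm, e', -⟩ := (hB2 b hb.1).1
    rw [e, e'] at h ⊢
    have h' : n * n = m * m := by exact_mod_cast h
    have : n = m := Nat.mul_self_inj.1 h'
    rw [this]
  refine ⟨?_, ?_⟩
  · rw [← Nat.card_coe_set_eq]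
    exact hA.1
  · intro a ha b hb v hv hvr
    by_cases hz : ∃ x : Bl M L ψ, x.1 v * x.1 (1 : G)⁻¹ ≠ 0
    · have hB := h1 D (Bl M L ψ) l (fun x => x.1 v * x.1 (1 : G)⁻¹) hinj
        (hsum v hv hvr 1 L.one_mem hreg1) hz
      have h := hB.2 ⟨a, ha⟩ ⟨b, hb⟩
      simp only [inv_one] at h
      rw [hdeg a ha b hb] at h
      exact mul_right_cancel₀ (hone b hb) h
    · push Not at hz
      have ea := hz ⟨a, ha⟩
      have eb := hz ⟨b, hb⟩
      simp only [inv_one] at ea eb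
      rw [(mul_eq_zero.1 ea).resolve_right (hone a ha), (mul_eq_zero.1 eb).resolve_right (hone b hb)]

end Pool.Agent.FI
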