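import Pool.Agent.helper95.FI.SpecM

set_option autoImplicit false

open Finset

noncomputable section

namespace Pool.Agent.FI

theorem MIN : MIN_stmt := by
  classical
  intro x A hA hAx z hz hN hn htn
  have hz' : Fd z ∧ nn z ≤ 25 * x ^ 2 := by
    unfold FF at hz
    exact (Finset.mem_filter.1 hz).2
  obtain ⟨hFd, hn2⟩ := hz'
  obtain ⟨a, l⟩ := z
  have hx1 : (1 : ℝ) ≤ x := by exact_mod_cast hA.trans hAx
  have hA1 : (1 : ℝ) ≤ A := by exact_mod_cast hA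
  have hAx' : (A : ℝ) ≤ x := by exact_mod_cast hAx
  have hN' : a ^ 2 - 8 * l ^ 2 < 0 := hN
  have hal : |a| < 2 * l := by
    rcases hFd.2 with h | h
    · exfalso
      have h1 : 4 * |l| < a := h
      have h2 := abs_nonneg l
      have h3 : (4 * |l|) ^ 2 < a ^ 2 := by nlinarith
      have h4 : |l| ^ 2 = l ^ 2 := sq_abs l
      nlinarith
    · exact h
  have hl0 : 0 < l := by
    have := abs_nonneg a
    omega
  have hnn : (nn (a, l) : ℤ) = 8 * l ^ 2 - a ^ 2 := by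
    unfold nn
    rw [Int.natCast_natAbs, abs_of_neg hN]
    show -(a ^ 2 - 8 * l ^ 2) = _
    ring
  have hnnR : (nn (a, l) : ℝ) = 8 * (l : ℝ) ^ 2 - (a : ℝ) ^ 2 := by
    have : ((nn (a, l) : ℤ) : ℝ) = ((8 * l ^ 2 - a ^ 2 : ℤ) : ℝ) := by rw [hnn]
    push_cast at this
    exact this
  have hnR : 9 * (x : ℝ) ^ 2 < 8 * (l : ℝ) ^ 2 - (a : ℝ) ^ 2 := by
    rw [← hnnR]
    exact_mod_cast hn
  have hn2R : 8 * (l : ℝ) ^ 2 - (a : ℝ) ^ 2 ≤ 25 * (x : ℝ) ^ 2 := by
    rw [← hnnR]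
    exact_mod_cast hn2
  have hlR : (0 : ℝ) < l := by exact_mod_cast hl0
  have halR : |(a : ℝ)| < 2 * l := by exact_mod_cast hal
  have hθ : √8 ^ 2 = 8 := Real.sq_sqrt (by norm_num)
  have hθ0 : 0 < √8 := Real.sqrt_pos.2 (by norm_num)
  have hθ2 : 2 < √8 := by nlinarith
  have hθ3 : √8 < 3 := by nlinarith
  obtain ⟨ha1, ha2⟩ := abs_lt.1 halR
  have hP : 0 < (a : ℝ) + l * √8 := by nlinarith
  have hQ : 0 < (l : ℝ) * √8 - a := by nlinarith
  have hh0 : (0 : ℝ) < A / (8 * x) := by positivity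
  have hh1 : (A : ℝ) / (8 * x) ≤ 1 / 8 := by
    rw [div_le_div_iff₀ (by positivity) (by norm_num)]
    linarith
  set h : ℝ := A / (8 * x) with hh
  have hyy : yy (a, l) = Real.log (((a : ℝ) + l * √8) / ((l : ℝ) * √8 - a)) := by
    unfold yy
    show Real.log (|(a : ℝ) + l * √8| / |(a : ℝ) - l * √8|) = _
    rw [abs_of_pos hP, abs_of_neg (by linarith), neg_sub]
  have hy : |yy (a, l) - h| < h := by
    by_contra hcon
    apply htn
    unfold tn
    refine max_eq_left ?_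
    have : 1 ≤ |yy (a, l) - h| / h := (one_le_div hh0).2 (not_lt.1 hcon)
    linarith
  obtain ⟨hy1, hy2⟩ := abs_lt.1 hy
  have hr : 0 < ((a : ℝ) + l * √8) / ((l : ℝ) * √8 - a) := div_pos hP hQ
  have hr1 : 1 < ((a : ℝ) + l * √8) / ((l : ℝ) * √8 - a) := by
    refine (Real.log_pos_iff hr.le).1 ?_
    rw [← hyy]
    linarith
  have ha0R : 0 < (a : ℝ) := by
    rw [one_lt_div hQ] at hr1
    linarith
  have hlog := Real.one_sub_inv_le_log_of_pos hr
  rw [← hyy, inv_div] at hlog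
  have h2a : 2 * (a : ℝ) < 2 * h * (a + l * √8) := by
    have h1 : 1 - ((l : ℝ) * √8 - a) / ((a : ℝ) + l * √8) < 2 * h := by linarith
    have h2 : (1 - ((l : ℝ) * √8 - a) / ((a : ℝ) + l * √8)) * (a + l * √8) < 2 * h * (a + l * √8) :=
      mul_lt_mul_of_pos_right h1 hP
    have h3 : (1 - ((l : ℝ) * √8 - a) / ((a : ℝ) + l * √8)) * (a + l * √8) = 2 * a := by
      field_simp
      ring
    linarith
  have h7 : 7 * (a : ℝ) ≤ 8 * h * (l * √8) := by
    have h8 : h * a ≤ a / 8 := by nlinarith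
    nlinarith
  have h49 : 7 * (a : ℝ) ≤ l * √8 := by
    have : h * (l * √8) ≤ l * √8 / 8 := by nlinarith [mul_pos hlR hθ0]
    linarith
  have hsq : 49 * (a : ℝ) ^ 2 ≤ 8 * (l : ℝ) ^ 2 := by
    have h1 : (7 * (a : ℝ)) ^ 2 ≤ (l * √8) ^ 2 := pow_le_pow_left₀ (by linarith) h49 2
    have h2 : ((l : ℝ) * √8) ^ 2 = 8 * (l : ℝ) ^ 2 := by rw [mul_pow, hθ]; ring
    nlinarith
  have hl2 : (l : ℝ) ≤ 9 / 5 * x := by
    by_contra hcon
    rw [not_le] at hcon
    have h1 : (9 / 5 * (x : ℝ)) ^ 2 < (l : ℝ) ^ 2 := pow_lt_pow_left₀ hcon (by positivity) (by norm_num)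
    nlinarith
  refine ⟨by exact_mod_cast ha0R, ?_, ?_, ?_⟩
  · have h1 : (a : ℝ) ≤ A := by
      have h2 : h * (l * √8) ≤ A / (8 * x) * (9 / 5 * x * 3) := by
        rw [hh]
        refine mul_le_mul_of_nonneg_left ?_ hh0.le
        nlinarith
      have h3 : (A : ℝ) / (8 * x) * (9 / 5 * x * 3) = 27 / 40 * A := by
        field_simp
        ring
      linarith
    exact_mod_cast h1
  · by_contra hcon
    rw [not_lt] at hcon
    have h1 : (l : ℝ) ≤ x := by exact_mod_cast hcon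
    nlinarith [sq_nonneg (a : ℝ)]
  · have h1 : (l : ℝ) ≤ 2 * x := by linarith
    exact_mod_cast h1

end Pool.Agent.FI
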